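import Pool.Agent.H476R2.PL.Trig

set_option autoImplicit false

/-! Restriction of polynomials to great circles, orthonormal frames. -/

namespace Pool.Agent.H476R2.PL

open MvPolynomial Finset

variable {n : ℕ}

/-- chain rule -/
theorem hasDerivAt_eval (u : MvPolynomial (Fin n) ℝ) {γ : ℝ → Fin n → ℝ} {γ' : Fin n → ℝ} {t : ℝ}
    (h : ∀ i, HasDerivAt (fun s => γ s i) (γ' i) t) :
    HasDerivAt (fun s => eval (γ s) u) (∑ i, γ' i * eval (γ t) (pderiv i u)) t := by
  induction u using MvPolynomial.induction_on with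
  | C a =>
    simp only [eval_C, pderiv_C, map_zero, mul_zero, sum_const_zero]
    exact hasDerivAt_const t a
  | add p q hp hq =>
    simp only [map_add, mul_add, sum_add_distrib]
    exact hp.add hq
  | mul_X p j hp =>
    simp only [map_mul, eval_X]
    refine (hp.mul (h j)).congr_deriv ?_
    simp only [Derivation.leibniz, pderiv_X, smul_eq_mul, map_add, map_mul, eval_X]
    have e : ∀ i, γ' i * (eval (γ t) p * eval (γ t) (Pi.single (M := fun _ =>
        MvPolynomial (Fin n) ℝ) i 1 j) + γ t j * eval (γ t) (pderiv i p)) =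
        (if i = j then γ' j * eval (γ t) p else 0) +
          (γ' i * eval (γ t) (pderiv i p)) * γ t j := by
      intro i
      by_cases hij : i = j
      · subst hij
        simp only [Pi.single_eq_same, map_one, if_true]
        ring
      · rw [Pi.single_eq_of_ne (Ne.symm hij), if_neg hij, map_zero]
        ring
    rw [sum_congr rfl fun i _ => e i, sum_add_distrib, sum_ite_eq' univ j, if_pos (mem_univ j),
      ← sum_mul]
    ring

/-- the great circle -/
noncomputable def cp (x τ : Fin n → ℝ) (θ : ℝ) : Fin n → ℝ :=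
  fun i => Real.cos θ * x i + Real.sin θ * τ i

theorem mul_lin_mem {m : ℕ} {f : ℝ → ℝ} (hf : f ∈ T m) (a b : ℝ) :
    (fun θ => f θ * (Real.cos θ * a + Real.sin θ * b)) ∈ T (m + 1) := by
  have h1 := (T (m + 1)).smul_mem a (mul_cos_mem hf)
  have h2 := (T (m + 1)).smul_mem b (mul_sin_mem hf)
  convert (T (m + 1)).add_mem h1 h2 using 1
  funext θ
  simp only [Pi.add_apply, Pi.smul_apply, smul_eq_mul]
  ring

theorem mul_lin_pow_mem {m : ℕ} {f : ℝ → ℝ} (hf : f ∈ T m) (a b : ℝ) (k : ℕ) :
    (fun θ => f θ * (Real.cos θ * a + Real.sin θ * b) ^ k) ∈ T (m + k) := by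
  induction k with
  | zero => simpa using hf
  | succ k ih =>
    have := mul_lin_mem ih a b
    rw [← add_assoc]
    convert this using 1
    funext θ
    ring

theorem prod_mem (x τ : Fin n → ℝ) (e : Fin n → ℕ) (s : Finset (Fin n)) :
    (fun θ => ∏ i ∈ s, (cp x τ θ i) ^ e i) ∈ T (∑ i ∈ s, e i) := by
  classical
  induction s using Finset.induction_on with
  | empty =>
    have := cos_mem (j := 0) (m := 0) le_rfl
    simpa using this
  | insert a s ha ih =>
    have := mul_lin_pow_mem ih (x a) (τ a) (e a)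
    rw [sum_insert ha, add_comm]
    convert this using 1
    funext θ
    rw [prod_insert ha, mul_comm]
    rfl

theorem mem_T (u : MvPolynomial (Fin n) ℝ) {m : ℕ} (h : u.totalDegree ≤ m) (x τ : Fin n → ℝ) :
    (fun θ => eval (cp x τ θ) u) ∈ T m := by
  have h1 : (fun θ => eval (cp x τ θ) u) =
      ∑ e ∈ u.support, (fun θ => coeff e u * ∏ i, (cp x τ θ i) ^ e i) := by
    funext θ
    rw [eval_eq' (cp x τ θ) u, Finset.sum_apply]
  rw [h1]
  apply Submodule.sum_mem
  intro e he
  have h2 := (le_totalDegree he).trans h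
  have h3 : (e.sum fun _ k => k) = ∑ i, e i := by
    rw [Finsupp.sum_fintype _ _ (by simp)]
  rw [h3] at h2
  have h4 := T_mono h2 (prod_mem x τ e univ)
  have h5 := (T m).smul_mem (coeff e u) h4
  exact h5

/-- completion of an orthonormal family to an orthogonal matrix -/
theorem exists_frame (s : Set (Fin n)) (v : Fin n → Fin n → ℝ)
    (hv : ∀ k ∈ s, ∀ l ∈ s, ∑ i, v k i * v l i = if k = l then 1 else 0) :
    ∃ B : Fin n → Fin n → ℝ, (∀ k ∈ s, B k = v k) ∧
      (∀ k l, ∑ i, B k i * B l i = if k = l then 1 else 0) ∧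
      (∀ i j, ∑ k, B k i * B k j = if i = j then 1 else 0) := by
  classical
  have hort : Orthonormal ℝ (s.domRestrict (fun k => (WithLp.toLp 2 (v k) :
      EuclideanSpace ℝ (Fin n)))) := by
    rw [orthonormal_iff_ite]
    rintro ⟨k, hk⟩ ⟨l, hl⟩
    have := hv k hk l hl
    simp only [Set.domRestrict_apply, Subtype.mk.injEq]
    rw [← this]
    simp only [PiLp.inner_apply, RCLike.inner_apply, conj_trivial]
    apply sum_congr rfl
    intro i _
    ring
  obtain ⟨b, hb⟩ := hort.exists_orthonormalBasis_extension_of_card_eq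
    (by simp)
  have h1 : ∀ k l, ∑ i, (b k) i * (b l) i = if k = l then 1 else 0 := by
    intro k l
    have := (orthonormal_iff_ite.1 b.orthonormal) k l
    simp only [PiLp.inner_apply, RCLike.inner_apply, conj_trivial] at this
    rw [← this]
    apply sum_congr rfl
    intro i _
    ring
  refine ⟨fun k i => (b k) i, ?_, h1, ?_⟩
  · intro k hk
    funext i
    change (b k).ofLp i = v k i
    rw [hb k hk]
  · intro i j
    let M : Matrix (Fin n) (Fin n) ℝ := fun k i => (b k) i
    have h2 : M * M.transpose = 1 := by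
      ext k l
      rw [Matrix.mul_apply, Matrix.one_apply]
      exact h1 k l
    have h3 : M.transpose * M = 1 := mul_eq_one_comm.1 h2
    have h4 := congrFun (congrFun h3 i) j
    rw [Matrix.mul_apply, Matrix.one_apply] at h4
    exact h4

/-- trace in an orthonormal frame -/
theorem trace_frame (H : Fin n → Fin n → ℝ) (B : Fin n → Fin n → ℝ)
    (hB : ∀ i j, ∑ k, B k i * B k j = if i = j then 1 else 0) :
    ∑ i, H i i = ∑ k, ∑ i, ∑ j, B k i * B k j * H i j := by
  classical
  have h1 : ∑ k, ∑ i, ∑ j, B k i * B k j * H i j = ∑ i, ∑ j, (∑ k, B k i * B k j) * H i j := by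
    rw [sum_comm]
    apply sum_congr rfl
    intro i _
    rw [sum_comm]
    apply sum_congr rfl
    intro j _
    rw [sum_mul]
  rw [h1]
  apply sum_congr rfl
  intro i _
  rw [sum_congr rfl fun j _ => by rw [hB i j]]
  simp

/-- value, first and second derivative on the great circle at `θ = 0` -/
theorem circle_deriv (u : MvPolynomial (Fin n) ℝ) (x τ : Fin n → ℝ) :
    ∃ f1 : ℝ → ℝ, (∀ θ, HasDerivAt (fun θ => eval (cp x τ θ) u) (f1 θ) θ) ∧
      f1 0 = ∑ i, τ i * eval x (pderiv i u) ∧
      HasDerivAt f1 ((∑ i, ∑ j, τ i * τ j * eval x (pderiv j (pderiv i u))) -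
        ∑ i, x i * eval x (pderiv i u)) 0 := by
  have hc : ∀ θ i, HasDerivAt (fun s => cp x τ s i) (-Real.sin θ * x i + Real.cos θ * τ i) θ := by
    intro θ i
    exact ((Real.hasDerivAt_cos θ).mul_const (x i)).add ((Real.hasDerivAt_sin θ).mul_const (τ i))
  have hx : cp x τ 0 = x := by
    funext i
    simp [cp]
  refine ⟨fun θ => ∑ i, (-Real.sin θ * x i + Real.cos θ * τ i) * eval (cp x τ θ) (pderiv i u),
    fun θ => hasDerivAt_eval u (hc θ), ?_, ?_⟩
  · simp only [Real.sin_zero, Real.cos_zero, neg_zero, zero_mul, one_mul, zero_add, hx]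
  · have h1 : ∀ i, HasDerivAt (fun θ => (-Real.sin θ * x i + Real.cos θ * τ i) *
        eval (cp x τ θ) (pderiv i u))
        (-(x i * eval x (pderiv i u)) + τ i * ∑ j, τ j * eval x (pderiv j (pderiv i u))) 0 := by
      intro i
      have a1 : HasDerivAt (fun θ => -Real.sin θ * x i + Real.cos θ * τ i)
          (-Real.cos 0 * x i + -Real.sin 0 * τ i) 0 :=
        ((Real.hasDerivAt_sin 0).neg.mul_const (x i)).add
          ((Real.hasDerivAt_cos 0).mul_const (τ i))
      have a2 := hasDerivAt_eval (pderiv i u) (hc 0)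
      refine (a1.mul a2).congr_deriv ?_
      simp only [Real.sin_zero, Real.cos_zero, neg_zero, zero_mul, one_mul, zero_add, hx]
      ring
    have h2 := HasDerivAt.fun_sum (u := univ) fun i _ => h1 i
    refine h2.congr_deriv ?_
    rw [sum_add_distrib, sum_neg_distrib]
    have h3 : ∑ i, τ i * ∑ j, τ j * eval x (pderiv j (pderiv i u)) =
        ∑ i, ∑ j, τ i * τ j * eval x (pderiv j (pderiv i u)) := by
      apply sum_congr rfl
      intro i _
      rw [mul_sum]
      apply sum_congr rfl
      intro j _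
      ring
    rw [h3]
    ring

end Pool.Agent.H476R2.PL
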