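import Pool.Agent.H476R2.PL.Geo

set_option autoImplicit false

/-! No polynomial solution of the p-Laplace equation on `ℝ^n` of degree at least two if
`p ≥ n ≥ 3`. -/

namespace Pool.Agent.H476R2.PL

open MvPolynomial Finset

variable {n : ℕ}

/-- the expanded p-Laplacian -/
noncomputable def Lp (s₂ : ℝ) (u : MvPolynomial (Fin n) ℝ) (x : Fin n → ℝ) : ℝ :=
  (∑ i, (eval x (pderiv i u)) ^ 2) * (∑ i, eval x (pderiv i (pderiv i u))) +
    s₂ * ∑ i, ∑ j, eval x (pderiv i u) * eval x (pderiv j u) * eval x (pderiv i (pderiv j u))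

theorem Lp_neg (s₂ : ℝ) (u : MvPolynomial (Fin n) ℝ) (x : Fin n → ℝ) :
    Lp s₂ (-u) x = -Lp s₂ u x := by
  unfold Lp
  simp only [map_neg, neg_sq, sum_neg_distrib, mul_neg, neg_mul, neg_neg]
  ring

theorem euler {u : MvPolynomial (Fin n) ℝ} {m : ℕ} (h : u.IsHomogeneous m) (x : Fin n → ℝ) :
    ∑ i, x i * eval x (pderiv i u) = m * eval x u := by
  have := congrArg (eval x) h.sum_X_mul_pderiv
  simpa [map_sum, nsmul_eq_mul] using this

theorem eval_scale {u : MvPolynomial (Fin n) ℝ} {m : ℕ} (h : u.IsHomogeneous m) (c : ℝ)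
    (y : Fin n → ℝ) : eval (fun i => c * y i) u = c ^ m * eval y u := by
  rw [eval_eq' _ u, eval_eq' _ u, mul_sum]
  apply sum_congr rfl
  intro e he
  have hd := h (mem_support_iff.mp he)
  rw [Finsupp.weight_apply, Finsupp.sum_fintype _ _ (by simp)] at hd
  simp only [Pi.one_apply, smul_eq_mul, mul_one] at hd
  simp only [mul_pow, prod_mul_distrib]
  rw [Finset.prod_pow_eq_pow_sum, hd]
  ring

theorem hom_pderiv {u : MvPolynomial (Fin n) ℝ} {m : ℕ} (h : u.IsHomogeneous (m + 1))
    (i : Fin n) : (pderiv i u).IsHomogeneous m := by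
  have := h.pderiv (i := i)
  simpa using this

/-- gradient at a maximum point -/
theorem grad {u : MvPolynomial (Fin n) ℝ} {m : ℕ} (h : u.IsHomogeneous m) {x : Fin n → ℝ} {U : ℝ}
    (hx : ∑ i, x i * x i = 1) (hU : eval x u = U)
    (hmax : ∀ y : Fin n → ℝ, ∑ i, y i * y i = 1 → |eval y u| ≤ U) (i : Fin n) :
    eval x (pderiv i u) = m * U * x i := by
  -- derivative in unit directions orthogonal to `x`
  have horth : ∀ τ : Fin n → ℝ, ∑ i, τ i * τ i = 1 → ∑ i, x i * τ i = 0 →
      ∑ i, τ i * eval x (pderiv i u) = 0 := by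
    intro τ h1 h2
    obtain ⟨f1, hf1, hf2, -⟩ := circle_deriv u x τ
    rw [← hf2]
    apply IsLocalMax.hasDerivAt_eq_zero (f := fun θ => eval (cp x τ θ) u) _ (hf1 0)
    apply Filter.Eventually.of_forall
    intro θ
    have e0 : cp x τ 0 = x := by
      funext i
      simp [cp]
    have e1 : ∑ i, cp x τ θ i * cp x τ θ i = 1 := by
      have : ∑ i, cp x τ θ i * cp x τ θ i = Real.cos θ ^ 2 * ∑ i, x i * x i +
          2 * Real.cos θ * Real.sin θ * (∑ i, x i * τ i) + Real.sin θ ^ 2 * ∑ i, τ i * τ i := by
        rw [mul_sum, mul_sum, mul_sum, ← sum_add_distrib, ← sum_add_distrib]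
        apply sum_congr rfl
        intro i _
        unfold cp
        ring
      rw [this, hx, h1, h2, Real.sin_sq]
      ring
    have := abs_le.1 (hmax _ e1)
    simp only [e0, hU]
    exact this.2
  -- the difference
  by_contra hne
  set w : Fin n → ℝ := fun i => eval x (pderiv i u) - m * U * x i with hw
  have hwx : ∑ i, x i * w i = 0 := by
    have h1 := euler h x
    have : ∑ i, x i * w i = (∑ i, x i * eval x (pderiv i u)) - m * U * ∑ i, x i * x i := by
      rw [mul_sum, ← sum_sub_distrib]
      apply sum_congr rfl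
      intro i _
      simp only [hw]
      ring
    rw [this, h1, hx, hU]
    ring
  have hpos : 0 < ∑ i, w i * w i := by
    apply sum_pos' (fun i _ => mul_self_nonneg _)
    refine ⟨i, mem_univ i, ?_⟩
    apply mul_self_pos.2
    simp only [hw]
    exact sub_ne_zero.2 hne
  set N := Real.sqrt (∑ i, w i * w i) with hN
  have hN0 : 0 < N := Real.sqrt_pos.2 hpos
  have hNN : N * N = ∑ i, w i * w i := Real.mul_self_sqrt hpos.le
  have h3 := horth (fun i => w i / N) (by
    have : ∑ i, w i / N * (w i / N) = (∑ i, w i * w i) / (N * N) := by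
      rw [sum_div]
      apply sum_congr rfl
      intro i _
      field_simp
    rw [this, hNN, div_self hpos.ne']) (by
    have : ∑ i, x i * (w i / N) = (∑ i, x i * w i) / N := by
      rw [sum_div]
      apply sum_congr rfl
      intro i _
      ring
    rw [this, hwx, zero_div])
  have h4 : ∑ i, w i * eval x (pderiv i u) = 0 := by
    have : ∑ i, w i / N * eval x (pderiv i u) = (∑ i, w i * eval x (pderiv i u)) / N := by
      rw [sum_div]
      apply sum_congr rfl
      intro i _
      ring
    rw [this] at h3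
    rcases div_eq_zero_iff.1 h3 with h | h
    · exact h
    · exact absurd h hN0.ne'
  have h5 : ∑ i, w i * w i = (∑ i, w i * eval x (pderiv i u)) - m * U * ∑ i, x i * w i := by
    rw [mul_sum, ← sum_sub_distrib]
    apply sum_congr rfl
    intro i _
    simp only [hw]
    ring
  rw [h4, hwx] at h5
  linarith

/-- Key lemma: at a maximum point all points at distance `π / m` are minimum points. -/
theorem key {u : MvPolynomial (Fin n) ℝ} {m : ℕ} (hm : 2 ≤ m) (h : u.IsHomogeneous m)
    {p : ℝ} (hp : (n : ℝ) ≤ p) (hE : ∀ y, Lp (p - 2) u y = 0)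
    {x : Fin n → ℝ} {U : ℝ} (hU0 : 0 < U)
    (hx : ∑ i, x i * x i = 1) (hU : eval x u = U)
    (hmax : ∀ y : Fin n → ℝ, ∑ i, y i * y i = 1 → |eval y u| ≤ U)
    {τ : Fin n → ℝ} (hτ : ∑ i, τ i * τ i = 1) (hxτ : ∑ i, x i * τ i = 0) :
    eval (cp x τ (Real.pi / m)) u = -U := by
  classical
  have hg := grad h hx hU hmax
  have hmr : (2 : ℝ) ≤ m := by exact_mod_cast hm
  -- second derivatives in the radial direction
  have hrad : ∀ i, ∑ j, x j * eval x (pderiv j (pderiv i u)) = (m - 1) * (m * U * x i) := by
    intro i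
    obtain ⟨k, rfl⟩ : ∃ k, m = k + 1 := ⟨m - 1, by omega⟩
    have h1 := euler (hom_pderiv h i) x
    rw [h1, hg i]
    push_cast
    ring
  set H : Fin n → Fin n → ℝ := fun i j => eval x (pderiv j (pderiv i u)) with hH
  set Q : (Fin n → ℝ) → ℝ := fun τ => ∑ i, ∑ j, τ i * τ j * H i j with hQ
  have hQx : Q x = m * (m - 1) * U := by
    have : Q x = ∑ i, x i * ∑ j, x j * H i j := by
      simp only [hQ]
      apply sum_congr rfl
      intro i _
      rw [mul_sum]
      apply sum_congr rfl
      intro j _
      ring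
    rw [this]
    simp only [hH, hrad]
    have h2 : ∑ i, x i * ((m - 1) * (m * U * x i)) = ((m - 1) * (m * U)) * ∑ i, x i * x i := by
      rw [mul_sum]
      apply sum_congr rfl
      intro i _
      ring
    rw [h2, hx]
    ring
  -- the equation at `x`
  have htr : ∑ i, H i i = -((p - 2) * (m * (m - 1) * U)) := by
    have h0 := hE x
    unfold Lp at h0
    simp only [hg] at h0
    have h1 : ∑ i, ((m : ℝ) * U * x i) ^ 2 = (m * U) ^ 2 := by
      have : ∑ i, ((m : ℝ) * U * x i) ^ 2 = (m * U) ^ 2 * ∑ i, x i * x i := by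
        rw [mul_sum]
        apply sum_congr rfl
        intro i _
        ring
      rw [this, hx, mul_one]
    have h2 : ∑ i, ∑ j, (m : ℝ) * U * x i * (m * U * x j) * eval x (pderiv i (pderiv j u)) =
        (m * U) ^ 2 * Q x := by
      simp only [hQ, hH]
      rw [mul_sum, sum_comm]
      apply sum_congr rfl
      intro i _
      rw [mul_sum]
      apply sum_congr rfl
      intro j _
      ring
    rw [h1, h2, hQx] at h0
    have h3 : ((m : ℝ) * U) ^ 2 ≠ 0 := by
      have : (0 : ℝ) < m * U := by positivity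
      positivity
    have h4 : ((m : ℝ) * U) ^ 2 * (∑ i, H i i + (p - 2) * (m * (m - 1) * U)) = 0 := by
      simp only [hH]
      linear_combination h0
    rcases mul_eq_zero.1 h4 with h | h
    · exact absurd h h3
    · linarith
  -- directions orthogonal to `x`
  have hbern : ∀ σ : Fin n → ℝ, ∑ i, σ i * σ i = 1 → ∑ i, x i * σ i = 0 →
      0 ≤ Q σ - (m * U - m ^ 2 * U) ∧
      (Q σ - (m * U - m ^ 2 * U) ≤ 0 → eval (cp x σ (Real.pi / m)) u = -U) := by
    intro σ h1 h2
    obtain ⟨f1, hf1, -, hf3⟩ := circle_deriv u x σ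
    have e0 : cp x σ 0 = x := by
      funext i
      simp [cp]
    have e1 : ∀ θ, |eval (cp x σ θ) u| ≤ U := by
      intro θ
      apply hmax
      have : ∑ i, cp x σ θ i * cp x σ θ i = Real.cos θ ^ 2 * ∑ i, x i * x i +
          2 * Real.cos θ * Real.sin θ * (∑ i, x i * σ i) + Real.sin θ ^ 2 * ∑ i, σ i * σ i := by
        rw [mul_sum, mul_sum, mul_sum, ← sum_add_distrib, ← sum_add_distrib]
        apply sum_congr rfl
        intro i _
        unfold cp
        ring
      rw [this, hx, h1, h2, Real.sin_sq]
      ring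
    have h3 := bernstein (m := m) (by omega) (f := fun θ => eval (cp x σ θ) u)
      (mem_T u h.totalDegree_le x σ) hf1 hf3 e1 (by simp only [e0, hU])
    have h4 := euler h x
    rw [hU] at h4
    rw [h4] at h3
    have e2 : Q σ = ∑ i, ∑ j, σ i * σ j * eval x (pderiv j (pderiv i u)) := rfl
    rw [← e2] at h3
    refine ⟨by linarith [h3.1], fun hle => h3.2 (by linarith)⟩
  -- the frame
  have hn : ∃ i0 i1 : Fin n, i0 ≠ i1 := by
    by_contra hcon
    push Not at hcon
    have hne : ∃ i, x i ≠ 0 := by
      by_contra h0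
      push Not at h0
      simp [h0] at hx
    have hne' : ∃ i, τ i ≠ 0 := by
      by_contra h0
      push Not at h0
      simp [h0] at hτ
    obtain ⟨i, hi⟩ := hne
    obtain ⟨j, hj⟩ := hne'
    have hij := hcon i j
    subst hij
    have h1 : ∑ k, x k * τ k = x i * τ i := by
      apply sum_eq_single i
      · intro b _ hb
        exact absurd (hcon b i) hb
      · intro h'
        exact absurd (mem_univ i) h'
    rw [h1] at hxτ
    rcases mul_eq_zero.1 hxτ with h' | h'
    · exact hi h'
    · exact hj h'
  obtain ⟨i0, i1, h01⟩ := hn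
  obtain ⟨B, hB1, hB2, hB3⟩ := exists_frame ({i0, i1} : Set (Fin n))
    (fun k => if k = i0 then x else τ) (by
      intro k hk l hl
      simp only [Set.mem_insert_iff, Set.mem_singleton_iff] at hk hl
      have hτx : ∑ i, τ i * x i = 0 := by
        rw [← hxτ]
        apply sum_congr rfl
        intro i _
        ring
      rcases hk with rfl | rfl <;> rcases hl with rfl | rfl
      · simp [hx]
      · simp [h01, h01.symm, hxτ]
      · simp [h01, h01.symm, hτx]
      · simp [h01.symm, hτ])
  have hBi0 : B i0 = x := by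
    rw [hB1 i0 (by simp)]
    simp
  have hBi1 : B i1 = τ := by
    rw [hB1 i1 (by simp)]
    simp [h01.symm]
  have hsum := trace_frame H B hB3
  rw [htr, ← Finset.add_sum_erase univ _ (mem_univ i0)] at hsum
  have e3 : ∑ i, ∑ j, B i0 i * B i0 j * H i j = Q x := by
    rw [hBi0]
  rw [e3, hQx] at hsum
  have hnn : ∀ k ∈ univ.erase i0, 0 ≤ Q (B k) - (m * U - m ^ 2 * U) := by
    intro k hk
    have hk' := ne_of_mem_erase hk
    refine (hbern (B k) ?_ ?_).1
    · have := hB2 k k
      simpa using this
    · have := hB2 i0 k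
      rw [if_neg (Ne.symm hk'), hBi0] at this
      exact this
  have hcard : ((univ.erase i0 : Finset (Fin n)).card : ℝ) = n - 1 := by
    rw [card_erase_of_mem (mem_univ i0), card_univ, Fintype.card_fin]
    have : 1 ≤ n := by
      have := i0.pos
      omega
    rw [Nat.cast_sub this]
    simp
  have e4 : ∑ k ∈ univ.erase i0, (Q (B k) - (m * U - m ^ 2 * U)) =
      -((p - 2) * (m * (m - 1) * U)) - m * (m - 1) * U - (n - 1) * (m * U - m ^ 2 * U) := by
    rw [sum_sub_distrib, sum_const, nsmul_eq_mul, hcard]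
    have : ∑ k ∈ univ.erase i0, Q (B k) =
        ∑ k ∈ univ.erase i0, ∑ i, ∑ j, B k i * B k j * H i j := rfl
    rw [this]
    linarith
  have e5 : ∑ k ∈ univ.erase i0, (Q (B k) - (m * U - m ^ 2 * U)) ≤ 0 := by
    rw [e4]
    have h1 : -((p - 2) * (m * (m - 1) * U)) - m * (m - 1) * U - (n - 1) * (m * U - m ^ 2 * U) =
        -((p - n) * (m * (m - 1) * U)) := by ring
    rw [h1]
    have h2 : 0 ≤ (p - n) * (m * (m - 1) * U) := by
      have a1 : 0 ≤ p - n := by linarith
      have a2 : (0 : ℝ) ≤ m - 1 := by linarith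
      positivity
    linarith
  have e6 : Q (B i1) - (m * U - m ^ 2 * U) ≤ 0 := by
    have h1 : i1 ∈ univ.erase i0 := mem_erase.2 ⟨h01.symm, mem_univ i1⟩
    exact (single_le_sum hnn h1).trans e5
  rw [hBi1] at e6
  exact (hbern τ hτ hxτ).2 e6

/-- No nonzero homogeneous solution of degree at least two if `p ≥ n ≥ 3`. -/
theorem homog {u : MvPolynomial (Fin n) ℝ} {m : ℕ} (hn : 3 ≤ n) (hm : 2 ≤ m)
    (h : u.IsHomogeneous m) {p : ℝ} (hp : (n : ℝ) ≤ p) (hE : ∀ y, Lp (p - 2) u y = 0) :
    u = 0 := by
  classical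
  by_contra hu
  -- maximum of `|u|` on the sphere
  set Sph : Set (Fin n → ℝ) := {y | ∑ i, y i * y i = 1} with hSph
  have hcomp : IsCompact Sph := by
    apply Metric.isCompact_of_isClosed_isBounded
    · apply isClosed_eq _ continuous_const
      fun_prop
    · refine (Metric.isBounded_closedBall (x := (0 : Fin n → ℝ)) (r := 1)).subset ?_
      intro y hy
      rw [mem_closedBall_zero_iff, pi_norm_le_iff_of_nonneg (by norm_num)]
      intro i
      have h1 : y i * y i ≤ ∑ i, y i * y i :=
        single_le_sum (f := fun i => y i * y i) (fun i _ => mul_self_nonneg _) (mem_univ i)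
      have h2 : ∑ i, y i * y i = 1 := hy
      rw [h2] at h1
      rw [Real.norm_eq_abs, abs_le]
      constructor <;> nlinarith
  have hne : Sph.Nonempty := by
    refine ⟨Pi.single ⟨0, by omega⟩ 1, ?_⟩
    change ∑ i, (Pi.single (M := fun _ => ℝ) (⟨0, by omega⟩ : Fin n) 1 i) *
      (Pi.single (M := fun _ => ℝ) (⟨0, by omega⟩ : Fin n) 1 i) = 1
    rw [sum_eq_single (⟨0, by omega⟩ : Fin n)]
    · simp
    · intro b _ hb
      rw [Pi.single_eq_of_ne hb]
      ring
    · intro h'
      exact absurd (mem_univ _) h'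
  obtain ⟨x, hx, hxmax⟩ := hcomp.exists_isMaxOn hne
    (f := fun y => |eval y u|) ((continuous_eval u).abs.continuousOn)
  have hx' : ∑ i, x i * x i = 1 := hx
  set U := |eval x u| with hUdef
  have hmax : ∀ y : Fin n → ℝ, ∑ i, y i * y i = 1 → |eval y u| ≤ U := fun y hy => hxmax hy
  have hU0 : 0 < U := by
    rcases (abs_nonneg (eval x u)).lt_or_eq with h0 | h0
    · exact h0
    · exfalso
      apply hu
      apply MvPolynomial.funext
      intro y
      rw [map_zero]
      by_cases hy : ∑ i, y i * y i = 0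
      · have hy0 : y = 0 := by
          funext i
          have := (sum_eq_zero_iff_of_nonneg fun i _ => mul_self_nonneg (y i)).1 hy i (mem_univ i)
          exact mul_self_eq_zero.1 this
        have h1 := euler h y
        rw [hy0] at h1 ⊢
        simp only [Pi.zero_apply, zero_mul, sum_const_zero] at h1
        have hm0 : (m : ℝ) ≠ 0 := by
          have : m ≠ 0 := by omega
          exact_mod_cast this
        rcases mul_eq_zero.1 h1.symm with h2 | h2
        · exact absurd h2 hm0
        · exact h2
      · have hpos : 0 < ∑ i, y i * y i :=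
          lt_of_le_of_ne (sum_nonneg fun i _ => mul_self_nonneg _) (Ne.symm hy)
        set N := Real.sqrt (∑ i, y i * y i) with hN
        have hN0 : 0 < N := Real.sqrt_pos.2 hpos
        have hNN : N * N = ∑ i, y i * y i := Real.mul_self_sqrt hpos.le
        have h1 := hmax (fun i => y i / N) (by
          have : ∑ i, y i / N * (y i / N) = (∑ i, y i * y i) / (N * N) := by
            rw [sum_div]
            apply sum_congr rfl
            intro i _
            field_simp
          rw [this, hNN, div_self hpos.ne'])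
        rw [hUdef, ← h0] at h1
        have h2 : eval (fun i => y i / N) u = 0 := by
          have := abs_nonneg (eval (fun i => y i / N) u)
          exact abs_eq_zero.1 (le_antisymm h1 this)
        have h3 : y = fun i => N * (y i / N) := by
          funext i
          field_simp
        rw [h3, eval_scale h, h2, mul_zero]
  -- sign normalisation
  have main : ∀ v : MvPolynomial (Fin n) ℝ, v.IsHomogeneous m → (∀ y, Lp (p - 2) v y = 0) →
      (∀ y : Fin n → ℝ, ∑ i, y i * y i = 1 → |eval y v| ≤ U) → eval x v = U → False := by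
    intro v hv hEv hmaxv hvx
    obtain ⟨B, hB1, hB2, -⟩ := exists_frame ({⟨0, by omega⟩} : Set (Fin n)) (fun _ => x) (by
      intro k hk l hl
      rw [Set.mem_singleton_iff] at hk hl
      rw [hk, hl, if_pos rfl, hx'])
    have hB0 : B ⟨0, by omega⟩ = x := hB1 _ rfl
    set τ := B ⟨1, by omega⟩ with hτdef
    set σ := B ⟨2, by omega⟩ with hσdef
    have xτ : ∑ i, x i * τ i = 0 := by
      rw [← hB0, hτdef, hB2]
      simp
    have xσ : ∑ i, x i * σ i = 0 := by
      rw [← hB0, hσdef, hB2]
      simp
    have τσ : ∑ i, τ i * σ i = 0 := by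
      rw [hτdef, hσdef, hB2]
      simp
    have ττ : ∑ i, τ i * τ i = 1 := by
      rw [hτdef, hB2]
      simp
    have σσ : ∑ i, σ i * σ i = 1 := by
      rw [hσdef, hB2]
      simp
    set c := Real.cos (Real.pi / m) with hc
    set s := Real.sin (Real.pi / m) with hs
    have hmr : (2 : ℝ) ≤ m := by exact_mod_cast hm
    have hπm : Real.pi / m ≤ Real.pi / 2 := by
      apply div_le_div_of_nonneg_left Real.pi_pos.le (by norm_num) hmr
    have hπm0 : 0 < Real.pi / m := by
      apply div_pos Real.pi_pos
      linarith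
    have hc0 : 0 ≤ c := Real.cos_nonneg_of_mem_Icc ⟨by linarith, hπm⟩
    have hs0 : 0 < s := Real.sin_pos_of_pos_of_lt_pi hπm0 (by linarith [Real.pi_pos])
    have hcs : c ^ 2 + s ^ 2 = 1 := Real.cos_sq_add_sin_sq _
    -- the second point
    set y := cp x τ (Real.pi / m) with hy
    have yy : ∑ i, y i * y i = 1 := by
      have : ∑ i, y i * y i = c ^ 2 * ∑ i, x i * x i +
          2 * c * s * (∑ i, x i * τ i) + s ^ 2 * ∑ i, τ i * τ i := by
        rw [mul_sum, mul_sum, mul_sum, ← sum_add_distrib, ← sum_add_distrib]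
        apply sum_congr rfl
        intro i _
        simp only [hy, cp]
        ring
      rw [this, hx', xτ, ττ]
      linarith
    have hvy : eval y v = -U := key hm hv hp hEv hU0 hx' hvx hmaxv ττ xτ
    -- the third point
    set r := c / (1 + c) with hr
    have hr0 : 0 ≤ r := by positivity
    have hr1 : r ≤ 1 := by
      rw [hr, div_le_one (by positivity)]
      linarith
    have hrc : r * (1 + c) = c := by
      rw [hr]
      field_simp
    set q := Real.sqrt (1 - r ^ 2) with hq
    have hqq : q ^ 2 = 1 - r ^ 2 := Real.sq_sqrt (by nlinarith)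
    set τ' : Fin n → ℝ := fun i => r * τ i + q * σ i with hτ'
    have τ'τ' : ∑ i, τ' i * τ' i = 1 := by
      have : ∑ i, τ' i * τ' i = r ^ 2 * ∑ i, τ i * τ i +
          2 * r * q * (∑ i, τ i * σ i) + q ^ 2 * ∑ i, σ i * σ i := by
        rw [mul_sum, mul_sum, mul_sum, ← sum_add_distrib, ← sum_add_distrib]
        apply sum_congr rfl
        intro i _
        simp only [hτ']
        ring
      rw [this, ττ, τσ, σσ]
      linarith
    have xτ' : ∑ i, x i * τ' i = 0 := by
      have : ∑ i, x i * τ' i = r * (∑ i, x i * τ i) + q * ∑ i, x i * σ i := by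
        rw [mul_sum, mul_sum, ← sum_add_distrib]
        apply sum_congr rfl
        intro i _
        simp only [hτ']
        ring
      rw [this, xτ, xσ]
      ring
    have hvz : eval (cp x τ' (Real.pi / m)) v = -U := key hm hv hp hEv hU0 hx' hvx hmaxv τ'τ' xτ'
    -- seen from `y`
    set z := cp x τ' (Real.pi / m) with hz
    have zz : ∑ i, z i * z i = 1 := by
      have : ∑ i, z i * z i = c ^ 2 * ∑ i, x i * x i +
          2 * c * s * (∑ i, x i * τ' i) + s ^ 2 * ∑ i, τ' i * τ' i := by
        rw [mul_sum, mul_sum, mul_sum, ← sum_add_distrib, ← sum_add_distrib]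
        apply sum_congr rfl
        intro i _
        simp only [hz, cp]
        ring
      rw [this, hx', xτ', τ'τ']
      linarith
    have yz : ∑ i, y i * z i = c := by
      have : ∑ i, y i * z i = c ^ 2 * ∑ i, x i * x i + c * s * (∑ i, x i * τ' i) +
          s * c * (∑ i, x i * τ i) + s ^ 2 * (r * (∑ i, τ i * τ i) + q * ∑ i, τ i * σ i) := by
        simp only [mul_sum, ← sum_add_distrib]
        apply sum_congr rfl
        intro i _
        simp only [hy, hz, cp, hτ']
        ring
      rw [this, hx', xτ', xτ, ττ, τσ]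
      have : s ^ 2 = 1 - c ^ 2 := by linarith
      rw [this]
      linear_combination (1 - c) * hrc
    set σ' : Fin n → ℝ := fun i => (z i - c * y i) / s with hσ'
    have yσ' : ∑ i, y i * σ' i = 0 := by
      have : ∑ i, y i * σ' i = ((∑ i, y i * z i) - c * ∑ i, y i * y i) / s := by
        rw [mul_sum, ← sum_sub_distrib, sum_div]
        apply sum_congr rfl
        intro i _
        simp only [hσ']
        ring
      rw [this, yz, yy]
      simp
    have σ'σ' : ∑ i, σ' i * σ' i = 1 := by
      have : ∑ i, σ' i * σ' i = ((∑ i, z i * z i) - 2 * c * (∑ i, y i * z i) +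
          c ^ 2 * ∑ i, y i * y i) / s ^ 2 := by
        rw [mul_sum, mul_sum, ← sum_sub_distrib, ← sum_add_distrib, sum_div]
        apply sum_congr rfl
        intro i _
        simp only [hσ']
        field_simp
        ring
      rw [this, yz, yy, zz, div_eq_one_iff_eq (by positivity)]
      linarith
    have hneg : ∀ w : Fin n → ℝ, eval w (-v) = -eval w v := fun w => map_neg _ _
    have hvz' : eval (cp y σ' (Real.pi / m)) (-v) = -U :=
      key hm hv.neg hp (fun w => by rw [Lp_neg, hEv, neg_zero]) hU0 yy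
        (by rw [hneg, hvy, neg_neg]) (fun w hw => by rw [hneg, abs_neg]; exact hmaxv w hw)
        σ'σ' yσ'
    have hzz : cp y σ' (Real.pi / m) = z := by
      funext i
      simp only [cp, hσ']
      rw [← hc, ← hs]
      field_simp
      ring
    rw [hzz, hneg, hvz] at hvz'
    linarith
  rcases abs_choice (eval x u) with hch | hch
  · exact main u h hE hmax (by rw [hUdef, hch])
  · refine main (-u) h.neg (fun w => by rw [Lp_neg, hE, neg_zero])
      (fun w hw => by rw [map_neg, abs_neg]; exact hmax w hw) ?_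
    rw [map_neg, hUdef, hch]

end Pool.Agent.H476R2.PL
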