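import Mathlib

set_option autoImplicit false

/-! A quadrature formula for the second derivative of a trigonometric polynomial and the
resulting Bernstein inequality at a maximum point. -/

namespace Pool.Agent.H476R2.PL

open Finset Real

/-- the functions `cos (j θ)`, `sin (j θ)`, `j ≤ m` -/
def trigSet (m : ℕ) : Set (ℝ → ℝ) :=
  {f | ∃ j : ℕ, j ≤ m ∧ ((f = fun θ => cos (j * θ)) ∨ (f = fun θ => sin (j * θ)))}

/-- trigonometric polynomials of degree at most `m` -/
def T (m : ℕ) : Submodule ℝ (ℝ → ℝ) := Submodule.span ℝ (trigSet m)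

theorem cos_mem {j m : ℕ} (h : j ≤ m) : (fun θ : ℝ => cos (j * θ)) ∈ T m :=
  Submodule.subset_span ⟨j, h, Or.inl rfl⟩

theorem sin_mem {j m : ℕ} (h : j ≤ m) : (fun θ : ℝ => sin (j * θ)) ∈ T m :=
  Submodule.subset_span ⟨j, h, Or.inr rfl⟩

theorem T_mono {m m' : ℕ} (h : m ≤ m') : T m ≤ T m' := by
  apply Submodule.span_mono
  rintro f ⟨j, hj, hf⟩
  exact ⟨j, hj.trans h, hf⟩

theorem mul_cos_mem {m : ℕ} {f : ℝ → ℝ} (hf : f ∈ T m) :
    (fun θ => f θ * cos θ) ∈ T (m + 1) := by
  induction hf using Submodule.span_induction with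
  | mem f hf =>
    obtain ⟨j, hj, rfl | rfl⟩ := hf
    · rcases Nat.eq_zero_or_pos j with rfl | hj0
      · have := cos_mem (j := 1) (m := m + 1) (by omega)
        convert this using 2 with θ
        simp
      · have h1 := (T (m + 1)).smul_mem (1 / 2) (cos_mem (j := j + 1) (m := m + 1) (by omega))
        have h2 := (T (m + 1)).smul_mem (1 / 2) (cos_mem (j := j - 1) (m := m + 1) (by omega))
        have h3 := (T (m + 1)).add_mem h1 h2
        convert h3 using 1
        funext θ
        simp only [Pi.add_apply, Pi.smul_apply, smul_eq_mul]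
        have e1 : (((j + 1 : ℕ) : ℝ) * θ) = j * θ + θ := by push_cast; ring
        have e2 : (((j - 1 : ℕ) : ℝ) * θ) = j * θ - θ := by
          rw [Nat.cast_sub (by omega : 1 ≤ j)]; push_cast; ring
        rw [e1, e2, cos_add, cos_sub]
        ring
    · rcases Nat.eq_zero_or_pos j with rfl | hj0
      · have := (T (m + 1)).zero_mem
        convert this using 1
        funext θ
        simp
      · have h1 := (T (m + 1)).smul_mem (1 / 2) (sin_mem (j := j + 1) (m := m + 1) (by omega))
        have h2 := (T (m + 1)).smul_mem (1 / 2) (sin_mem (j := j - 1) (m := m + 1) (by omega))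
        have h3 := (T (m + 1)).add_mem h1 h2
        convert h3 using 1
        funext θ
        simp only [Pi.add_apply, Pi.smul_apply, smul_eq_mul]
        have e1 : (((j + 1 : ℕ) : ℝ) * θ) = j * θ + θ := by push_cast; ring
        have e2 : (((j - 1 : ℕ) : ℝ) * θ) = j * θ - θ := by
          rw [Nat.cast_sub (by omega : 1 ≤ j)]; push_cast; ring
        rw [e1, e2, sin_add, sin_sub]
        ring
  | zero =>
    have := (T (m + 1)).zero_mem
    convert this using 1
    funext θ
    simp
  | add f g _ _ hf hg =>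
    have := (T (m + 1)).add_mem hf hg
    convert this using 1
    funext θ
    simp only [Pi.add_apply]
    ring
  | smul c f _ hf =>
    have := (T (m + 1)).smul_mem c hf
    convert this using 1
    funext θ
    simp only [Pi.smul_apply, smul_eq_mul]
    ring

theorem mul_sin_mem {m : ℕ} {f : ℝ → ℝ} (hf : f ∈ T m) :
    (fun θ => f θ * sin θ) ∈ T (m + 1) := by
  induction hf using Submodule.span_induction with
  | mem f hf =>
    obtain ⟨j, hj, rfl | rfl⟩ := hf
    · rcases Nat.eq_zero_or_pos j with rfl | hj0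
      · have := sin_mem (j := 1) (m := m + 1) (by omega)
        convert this using 2 with θ
        simp
      · have h1 := (T (m + 1)).smul_mem (1 / 2) (sin_mem (j := j + 1) (m := m + 1) (by omega))
        have h2 := (T (m + 1)).smul_mem (-(1 / 2)) (sin_mem (j := j - 1) (m := m + 1) (by omega))
        have h3 := (T (m + 1)).add_mem h1 h2
        convert h3 using 1
        funext θ
        simp only [Pi.add_apply, Pi.smul_apply, smul_eq_mul]
        have e1 : (((j + 1 : ℕ) : ℝ) * θ) = j * θ + θ := by push_cast; ring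
        have e2 : (((j - 1 : ℕ) : ℝ) * θ) = j * θ - θ := by
          rw [Nat.cast_sub (by omega : 1 ≤ j)]; push_cast; ring
        rw [e1, e2, sin_add, sin_sub]
        ring
    · rcases Nat.eq_zero_or_pos j with rfl | hj0
      · have := (T (m + 1)).zero_mem
        convert this using 1
        funext θ
        simp
      · have h1 := (T (m + 1)).smul_mem (-(1 / 2)) (cos_mem (j := j + 1) (m := m + 1) (by omega))
        have h2 := (T (m + 1)).smul_mem (1 / 2) (cos_mem (j := j - 1) (m := m + 1) (by omega))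
        have h3 := (T (m + 1)).add_mem h1 h2
        convert h3 using 1
        funext θ
        simp only [Pi.add_apply, Pi.smul_apply, smul_eq_mul]
        have e1 : (((j + 1 : ℕ) : ℝ) * θ) = j * θ + θ := by push_cast; ring
        have e2 : (((j - 1 : ℕ) : ℝ) * θ) = j * θ - θ := by
          rw [Nat.cast_sub (by omega : 1 ≤ j)]; push_cast; ring
        rw [e1, e2, cos_add, cos_sub]
        ring
  | zero =>
    have := (T (m + 1)).zero_mem
    convert this using 1
    funext θ
    simp
  | add f g _ _ hf hg =>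
    have := (T (m + 1)).add_mem hf hg
    convert this using 1
    funext θ
    simp only [Pi.add_apply]
    ring
  | smul c f _ hf =>
    have := (T (m + 1)).smul_mem c hf
    convert this using 1
    funext θ
    simp only [Pi.smul_apply, smul_eq_mul]
    ring

/-! ### the quadrature formula -/

/-- the weights -/
noncomputable def b (m k : ℕ) : ℝ := 1 / (2 * sin (k * (π / (2 * m))) ^ 2)

theorem sin_pos' {m k : ℕ} (hk : 0 < k) (hk2 : k < 2 * m) : 0 < sin (k * (π / (2 * m))) := by
  have hm : (0 : ℝ) < m := by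
    have : 0 < m := by omega
    exact_mod_cast this
  apply sin_pos_of_pos_of_lt_pi
  · have : (0 : ℝ) < k := by exact_mod_cast hk
    positivity
  · have h1 : (k : ℝ) < 2 * m := by exact_mod_cast hk2
    have h2 : (k : ℝ) * (π / (2 * m)) = (k / (2 * m)) * π := by ring
    rw [h2]
    have h3 : (k : ℝ) / (2 * m) < 1 := by
      rw [div_lt_one (by positivity)]
      exact h1
    nlinarith [pi_pos]

theorem b_pos {m k : ℕ} (hk : 0 < k) (hk2 : k < 2 * m) : 0 < b m k := by
  have := sin_pos' hk hk2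
  unfold b
  positivity

theorem alt_sum (α : ℝ) (N : ℕ) :
    2 * cos (α / 2) * ∑ k ∈ range N, (-1 : ℝ) ^ k * cos (k * α) =
      cos (α / 2) - (-1) ^ N * cos ((N - 1 / 2) * α) := by
  induction N with
  | zero =>
    simp only [range_zero, sum_empty, mul_zero, pow_zero, one_mul, Nat.cast_zero]
    have : ((0 : ℝ) - 1 / 2) * α = -(α / 2) := by ring
    rw [this, cos_neg, sub_self]
  | succ N ih =>
    rw [sum_range_succ, mul_add, ih]
    have e1 : (((N + 1 : ℕ) : ℝ) - 1 / 2) * α = N * α + α / 2 := by push_cast; ring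
    have e2 : ((N : ℝ) - 1 / 2) * α = N * α - α / 2 := by ring
    rw [e1, e2, cos_add, cos_sub, pow_succ]
    ring

/-- the alternating cosine sum -/
noncomputable def S (m j : ℕ) : ℝ :=
  ∑ k ∈ Ico 1 (2 * m), (-1 : ℝ) ^ (k + 1) * b m k * cos (j * (k * (π / m)))

theorem alt_zero {m j : ℕ} (hj : j < m) :
    ∑ k ∈ Ico 1 (2 * m), (-1 : ℝ) ^ k * cos (j * (k * (π / m))) = -1 := by
  have hm : (0 : ℝ) < m := by
    have : 0 < m := by omega
    exact_mod_cast this
  have h := alt_sum (j * (π / m)) (2 * m)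
  have e0 : cos (j * (π / m) / 2) ≠ 0 := by
    apply ne_of_gt
    apply cos_pos_of_mem_Ioo
    constructor
    · have : (0 : ℝ) ≤ j * (π / m) / 2 := by positivity
      linarith [pi_pos]
    · have h1 : (j : ℝ) < m := by exact_mod_cast hj
      have h2 : (j : ℝ) * (π / m) / 2 = (j / m) * (π / 2) := by ring
      rw [h2]
      have h3 : (j : ℝ) / m < 1 := by
        rw [div_lt_one hm]
        exact h1
      nlinarith [pi_pos]
  have e1 : (((2 * m : ℕ) : ℝ) - 1 / 2) * (j * (π / m)) = -(j * (π / m) / 2) + j * (2 * π) := by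
    push_cast
    field_simp
    ring
  rw [e1, cos_add_nat_mul_two_pi, cos_neg, pow_mul] at h
  norm_num at h
  have h4 : ∑ k ∈ range (2 * m), (-1 : ℝ) ^ k * cos (k * (j * (π / m))) = 0 := by
    rcases h with h | h
    · exact absurd h e0
    · exact h
  have h5 : 0 < 2 * m := by omega
  rw [range_eq_Ico, sum_eq_sum_Ico_succ_bot h5] at h4
  simp only [pow_zero, Nat.cast_zero, zero_mul, cos_zero, mul_one, zero_add] at h4
  have h6 : ∑ k ∈ Ico 1 (2 * m), (-1 : ℝ) ^ k * cos (j * (k * (π / m))) =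
      ∑ k ∈ Ico 1 (2 * m), (-1 : ℝ) ^ k * cos (k * (j * (π / m))) := by
    apply sum_congr rfl
    intro k _
    congr 2
    ring
  rw [h6]
  linarith

theorem S_diff {m j : ℕ} (hj : j < m) :
    (∑ k ∈ Ico 1 (2 * m), (-1 : ℝ) ^ (k + 1) * b m k *
      (cos (j * (k * (π / m)) + k * (π / m)) + cos (j * (k * (π / m)) - k * (π / m)))) =
      2 * S m j - 2 := by
  have hm : (0 : ℝ) < m := by
    have : 0 < m := by omega
    exact_mod_cast this
  have h := alt_zero hj
  have h2 : (2 : ℝ) * S m j - 2 = ∑ k ∈ Ico 1 (2 * m), ((-1 : ℝ) ^ (k + 1) * b m k *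
      (2 * cos (j * (k * (π / m)))) + 2 * ((-1 : ℝ) ^ k * cos (j * (k * (π / m))))) := by
    rw [sum_add_distrib, ← mul_sum, h]
    unfold S
    rw [mul_sum]
    have : ∀ k ∈ Ico 1 (2 * m), (2 : ℝ) * ((-1 : ℝ) ^ (k + 1) * b m k *
        cos (j * (k * (π / m)))) = (-1 : ℝ) ^ (k + 1) * b m k *
      (2 * cos (j * (k * (π / m)))) := by
      intro k _
      ring
    rw [sum_congr rfl this]
    ring
  rw [h2]
  apply sum_congr rfl
  intro k hk
  rw [mem_Ico] at hk
  have hs := sin_pos' (m := m) (k := k) (by omega) hk.2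
  have hb : b m k * (2 * sin (k * (π / (2 * m))) ^ 2) = 1 := by
    unfold b
    rw [one_div]
    exact inv_mul_cancel₀ (by positivity)
  have hc : cos (k * (π / m)) = 1 - 2 * sin (k * (π / (2 * m))) ^ 2 := by
    have : (k : ℝ) * (π / m) = 2 * (k * (π / (2 * m))) := by
      field_simp
    rw [this, cos_two_mul, cos_sq']
    ring
  rw [cos_add, cos_sub, hc, pow_succ]
  linear_combination (2 * (-1 : ℝ) ^ k * cos (j * (k * (π / m)))) * hb

theorem S_succ {m j : ℕ} (hj : j + 1 < m) : S m (j + 2) + S m j = 2 * S m (j + 1) - 2 := by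
  rw [← S_diff hj]
  unfold S
  rw [← sum_add_distrib]
  apply sum_congr rfl
  intro k _
  have e1 : ((j + 1 : ℕ) : ℝ) * (k * (π / m)) + k * (π / m) =
      ((j + 2 : ℕ) : ℝ) * (k * (π / m)) := by push_cast; ring
  have e2 : ((j + 1 : ℕ) : ℝ) * (k * (π / m)) - k * (π / m) = (j : ℝ) * (k * (π / m)) := by
    push_cast; ring
  rw [e1, e2]
  ring

theorem S_one {m : ℕ} (hm : 0 < m) : S m 1 = S m 0 - 1 := by
  have h := S_diff hm
  have h2 : (∑ k ∈ Ico 1 (2 * m), (-1 : ℝ) ^ (k + 1) * b m k *
      (cos (((0 : ℕ) : ℝ) * (k * (π / m)) + k * (π / m)) +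
        cos (((0 : ℕ) : ℝ) * (k * (π / m)) - k * (π / m)))) = 2 * S m 1 := by
    unfold S
    rw [mul_sum]
    apply sum_congr rfl
    intro k _
    have e1 : (((0 : ℕ) : ℝ) * (k * (π / m)) + k * (π / m)) =
      ((1 : ℕ) : ℝ) * (k * (π / m)) := by push_cast; ring
    have e2 : (((0 : ℕ) : ℝ) * (k * (π / m)) - k * (π / m)) =
      -(((1 : ℕ) : ℝ) * (k * (π / m))) := by push_cast; ring
    rw [e1, e2, cos_neg]
    ring
  rw [h2] at h
  linarith

theorem S_eq {m : ℕ} (hm : 0 < m) : ∀ j, j ≤ m → S m j = S m 0 - (j : ℝ) ^ 2 := by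
  have key : ∀ j, (j ≤ m → S m j = S m 0 - (j : ℝ) ^ 2) ∧
      (j + 1 ≤ m → S m (j + 1) = S m 0 - ((j + 1 : ℕ) : ℝ) ^ 2) := by
    intro j
    induction j with
    | zero =>
      refine ⟨fun _ => by simp, fun _ => ?_⟩
      rw [zero_add, S_one hm]
      simp
    | succ j ih =>
      refine ⟨ih.2, fun h => ?_⟩
      have h1 := ih.1 (by omega)
      have h2 := ih.2 (by omega)
      have h3 := S_succ (m := m) (j := j) (by omega)
      have : S m (j + 1 + 1) = S m (j + 2) := rfl
      rw [this]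
      push_cast at h1 h2 ⊢
      linear_combination h3 + 2 * h2 - h1
  intro j
  exact (key j).1

/-- sum of the weights -/
theorem S_sum {m : ℕ} (hm : 0 < m) : S m 0 + ∑ k ∈ Ico 1 (2 * m), b m k = (m : ℝ) ^ 2 := by
  have h := S_eq hm m le_rfl
  have hm' : (m : ℝ) ≠ 0 := by
    have : m ≠ 0 := by omega
    exact_mod_cast this
  have h2 : S m m = -∑ k ∈ Ico 1 (2 * m), b m k := by
    unfold S
    rw [← sum_neg_distrib]
    apply sum_congr rfl
    intro k _
    have e : (m : ℝ) * (k * (π / m)) = k * π := by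
      field_simp
    rw [e, cos_nat_mul_pi, pow_succ]
    have : ((-1 : ℝ) ^ k) * (-1 : ℝ) ^ k = 1 := by
      rw [← mul_pow]
      norm_num
    linear_combination (-b m k) * this
  rw [h2] at h
  linarith

theorem sin_sum {m : ℕ} (j : ℕ) :
    ∑ k ∈ Ico 1 (2 * m), (-1 : ℝ) ^ (k + 1) * b m k * sin (j * (k * (π / m))) = 0 := by
  rcases Nat.eq_zero_or_pos m with rfl | hm
  · simp
  have hm' : (m : ℝ) ≠ 0 := by
    have : m ≠ 0 := by omega
    exact_mod_cast this
  have h := sum_bij' (s := Ico 1 (2 * m)) (t := Ico 1 (2 * m))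
    (f := fun k => (-1 : ℝ) ^ (k + 1) * b m k * sin (j * (k * (π / m))))
    (g := fun k => -((-1 : ℝ) ^ (k + 1) * b m k * sin (j * (k * (π / m)))))
    (fun k _ => 2 * m - k) (fun k _ => 2 * m - k)
    (fun k hk => by rw [mem_Ico] at hk ⊢; omega)
    (fun k hk => by rw [mem_Ico] at hk ⊢; omega)
    (fun k hk => by rw [mem_Ico] at hk; omega)
    (fun k hk => by rw [mem_Ico] at hk; omega)
    (fun k hk => by
      rw [mem_Ico] at hk
      have hk' : k ≤ 2 * m := by omega
      have e1 : ((2 * m - k : ℕ) : ℝ) = 2 * m - k := by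
        rw [Nat.cast_sub hk']; push_cast; ring
      have e2 : (-1 : ℝ) ^ (2 * m - k + 1) = (-1) ^ (k + 1) := by
        have h1 : (-1 : ℝ) ^ (2 * m - k + 1) * (-1) ^ (k + 1) = 1 := by
          rw [← pow_add]
          have : 2 * m - k + 1 + (k + 1) = 2 * (m + 1) := by omega
          rw [this, pow_mul]
          norm_num
        have h2 : (-1 : ℝ) ^ (k + 1) * (-1) ^ (k + 1) = 1 := by
          rw [← mul_pow]
          norm_num
        have h3 : (-1 : ℝ) ^ (k + 1) ≠ 0 := by
          apply pow_ne_zero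
          norm_num
        exact mul_right_cancel₀ h3 (h1.trans h2.symm)
      have e3 : b m (2 * m - k) = b m k := by
        unfold b
        rw [e1]
        have : (2 * (m : ℝ) - k) * (π / (2 * m)) = π - k * (π / (2 * m)) := by
          field_simp
        rw [this, sin_pi_sub]
      have e4 : sin (j * (((2 * m - k : ℕ) : ℝ) * (π / m))) = -sin (j * (k * (π / m))) := by
        rw [e1]
        have : (j : ℝ) * ((2 * m - k) * (π / m)) = j * (2 * π) - j * (k * (π / m)) := by
          field_simp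
        rw [this, sin_nat_mul_two_pi_sub]
      simp only [e2, e3, e4]
      ring)
  rw [sum_neg_distrib] at h
  linarith

/-- The quadrature formula for the second derivative at `0`. -/
theorem quad {m : ℕ} (hm : 0 < m) {f : ℝ → ℝ} (hf : f ∈ T m) :
    ∃ f1 : ℝ → ℝ, (∀ θ, HasDerivAt f (f1 θ) θ) ∧
      HasDerivAt f1 (-S m 0 * f 0 + ∑ k ∈ Ico 1 (2 * m), (-1 : ℝ) ^ (k + 1) * b m k *
        f (k * (π / m))) 0 := by
  induction hf using Submodule.span_induction with
  | mem f hf =>
    obtain ⟨j, hj, rfl | rfl⟩ := hf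
    · refine ⟨fun θ => -sin (j * θ) * j, fun θ => ?_, ?_⟩
      · have h1 : HasDerivAt (fun θ : ℝ => (j : ℝ) * θ) (j : ℝ) θ := by
          simpa using (hasDerivAt_id θ).const_mul (j : ℝ)
        exact h1.cos
      · have h1 : HasDerivAt (fun θ : ℝ => (j : ℝ) * θ) (j : ℝ) 0 := by
          simpa using (hasDerivAt_id (0 : ℝ)).const_mul (j : ℝ)
        have h2 := (h1.sin.neg).mul_const (j : ℝ)
        refine h2.congr_deriv ?_
        have h3 := S_eq hm j hj
        have h4 : S m j = ∑ k ∈ Ico 1 (2 * m), (-1 : ℝ) ^ (k + 1) * b m k *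
            cos (j * (k * (π / m))) := rfl
        rw [← h4, h3]
        simp only [mul_zero, cos_zero]
        ring
    · refine ⟨fun θ => cos (j * θ) * j, fun θ => ?_, ?_⟩
      · have h1 : HasDerivAt (fun θ : ℝ => (j : ℝ) * θ) (j : ℝ) θ := by
          simpa using (hasDerivAt_id θ).const_mul (j : ℝ)
        exact h1.sin
      · have h1 : HasDerivAt (fun θ : ℝ => (j : ℝ) * θ) (j : ℝ) 0 := by
          simpa using (hasDerivAt_id (0 : ℝ)).const_mul (j : ℝ)
        have h2 := (h1.cos).mul_const (j : ℝ)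
        refine h2.congr_deriv ?_
        rw [sin_sum]
        simp
  | zero =>
    refine ⟨fun _ => 0, fun θ => hasDerivAt_const θ 0, ?_⟩
    simpa using hasDerivAt_const (0 : ℝ) (0 : ℝ)
  | add f g _ _ hf hg =>
    obtain ⟨f1, hf1, hf2⟩ := hf
    obtain ⟨g1, hg1, hg2⟩ := hg
    refine ⟨fun θ => f1 θ + g1 θ, fun θ => (hf1 θ).add (hg1 θ), ?_⟩
    refine (hf2.add hg2).congr_deriv ?_
    simp only [Pi.add_apply, mul_add, sum_add_distrib]
    ring
  | smul c f _ hf =>
    obtain ⟨f1, hf1, hf2⟩ := hf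
    refine ⟨fun θ => c * f1 θ, fun θ => (hf1 θ).const_mul c, ?_⟩
    refine (hf2.const_mul c).congr_deriv ?_
    simp only [Pi.smul_apply, smul_eq_mul, mul_add, mul_sum]
    congr 1
    · ring
    · apply sum_congr rfl
      intro k _
      ring

/-- Bernstein's inequality for the second derivative at a maximum point, with the case of
equality. -/
theorem bernstein {m : ℕ} (hm : 0 < m) {f f1 : ℝ → ℝ} {U f2 : ℝ} (hf : f ∈ T m)
    (h1 : ∀ θ, HasDerivAt f (f1 θ) θ) (h2 : HasDerivAt f1 f2 0)
    (hU : ∀ θ, |f θ| ≤ U) (h0 : f 0 = U) :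
    -((m : ℝ) ^ 2 * U) ≤ f2 ∧ (f2 ≤ -((m : ℝ) ^ 2 * U) → f (π / m) = -U) := by
  obtain ⟨g1, hg1, hg2⟩ := quad hm hf
  have e : f1 = g1 := by
    funext θ
    exact (h1 θ).unique (hg1 θ)
  subst e
  have e2 := h2.unique hg2
  have hS := S_sum hm
  have hterm : ∀ k ∈ Ico 1 (2 * m), 0 ≤ b m k * (U + (-1 : ℝ) ^ (k + 1) * f (k * (π / m))) := by
    intro k hk
    rw [mem_Ico] at hk
    have hb := b_pos (m := m) (k := k) (by omega) hk.2
    have h3 := abs_le.1 (hU (k * (π / m)))
    rcases neg_one_pow_eq_or ℝ (k + 1) with h4 | h4 <;> rw [h4]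
    · have : 0 ≤ U + 1 * f (k * (π / m)) := by linarith
      positivity
    · have : 0 ≤ U + -1 * f (k * (π / m)) := by linarith
      positivity
  have e3 : f2 = -((m : ℝ) ^ 2 * U) +
      ∑ k ∈ Ico 1 (2 * m), b m k * (U + (-1 : ℝ) ^ (k + 1) * f (k * (π / m))) := by
    rw [e2, h0, ← hS]
    simp only [mul_add, sum_add_distrib]
    rw [← sum_mul]
    have : ∑ k ∈ Ico 1 (2 * m), (-1 : ℝ) ^ (k + 1) * b m k * f (k * (π / m)) =
        ∑ k ∈ Ico 1 (2 * m), b m k * ((-1 : ℝ) ^ (k + 1) * f (k * (π / m))) := by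
      apply sum_congr rfl
      intro k _
      ring
    rw [this]
    ring
  refine ⟨?_, fun hle => ?_⟩
  · rw [e3]
    have := sum_nonneg hterm
    linarith
  · have h5 : ∑ k ∈ Ico 1 (2 * m), b m k * (U + (-1 : ℝ) ^ (k + 1) * f (k * (π / m))) = 0 := by
      have := sum_nonneg hterm
      linarith
    have h6 := (sum_eq_zero_iff_of_nonneg hterm).1 h5 1 (by rw [mem_Ico]; omega)
    have hb := b_pos (m := m) (k := 1) (by omega) (by omega)
    have h7 : U + (-1 : ℝ) ^ (1 + 1) * f ((1 : ℕ) * (π / m)) = 0 := by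
      rcases mul_eq_zero.1 h6 with h | h
      · exact absurd h hb.ne'
      · exact h
    norm_num at h7
    linarith

end Pool.Agent.H476R2.PL
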